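import Mathlib

/-!
Ordered Turán numbers of strongly non-nested matchings: for all `k ≥ 4` and `n ≥ 2 k + 1` there is an
ordered graph with `n` vertices and `(k - 1) n + 1` edges without a strongly non-nested `k`-matching.
-/

namespace Pool.Agent.Results.MP_19ad23_co.BeyondLinear

open Finset

/-- Two edges (pairs `(x, y)` with `x < y`) are vertex-disjoint. -/
def Disj (e f : ℕ × ℕ) : Prop := e.1 ≠ f.1 ∧ e.1 ≠ f.2 ∧ e.2 ≠ f.1 ∧ e.2 ≠ f.2

/-- The intervals of the two edges are disjoint. -/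
def Separated (e f : ℕ × ℕ) : Prop := e.2 < f.1 ∨ f.2 < e.1

/-- One of the two intervals contains the other. -/
def Nested (e f : ℕ × ℕ) : Prop := (e.1 < f.1 ∧ f.2 < e.2) ∨ (f.1 < e.1 ∧ e.2 < f.2)

/-- The two edges cross. -/
def Crossing (e f : ℕ × ℕ) : Prop :=
  (e.1 < f.1 ∧ f.1 < e.2 ∧ e.2 < f.2) ∨ (f.1 < e.1 ∧ e.1 < f.2 ∧ f.2 < e.2)

/-- An ordered graph on `[n] = {0, …, n-1}`, given by its set of edges `(x, y)`, `x < y`. -/
def OrderedGraph (n : ℕ) (G : Finset (ℕ × ℕ)) : Prop := ∀ e ∈ G, e.1 < e.2 ∧ e.2 < n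

/-- A `k`-matching (of edges `(x, y)`, `x < y`). -/
def Matching (k : ℕ) (M : Finset (ℕ × ℕ)) : Prop :=
  M.card = k ∧ (∀ e ∈ M, e.1 < e.2) ∧ ∀ e ∈ M, ∀ f ∈ M, e ≠ f → Disj e f

/-- No two edges are nested. -/
def NonNested (M : Finset (ℕ × ℕ)) : Prop := ∀ e ∈ M, ∀ f ∈ M, e ≠ f → ¬ Nested e f

/-- The matching can be partitioned into parts (the fibres of `p`) such that edges in the same part
cross and edges in different parts are separated. -/
def StronglyNonNested (M : Finset (ℕ × ℕ)) : Prop :=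
  ∃ p : ℕ × ℕ → ℕ, ∀ e ∈ M, ∀ f ∈ M, e ≠ f →
    (p e = p f → Crossing e f) ∧ (p e ≠ p f → Separated e f)

/-- `ex_<(n, ¬Nest-M_k)`. -/
noncomputable def exNN (n k : ℕ) : ℕ :=
  sSup {a | ∃ G : Finset (ℕ × ℕ), OrderedGraph n G ∧
    (∀ M : Finset (ℕ × ℕ), M ⊆ G → Matching k M → ¬ NonNested M) ∧ G.card = a}

/-- `ex_<(n, ¬Nest*-M_k)`. -/
noncomputable def exStar (n k : ℕ) : ℕ :=
  sSup {a | ∃ G : Finset (ℕ × ℕ), OrderedGraph n G ∧
    (∀ M : Finset (ℕ × ℕ), M ⊆ G → Matching k M → ¬ StronglyNonNested M) ∧ G.card = a}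

lemma le_exStar {n k : ℕ} (G : Finset (ℕ × ℕ)) (h1 : OrderedGraph n G)
    (h2 : ∀ M : Finset (ℕ × ℕ), M ⊆ G → Matching k M → ¬ StronglyNonNested M) :
    G.card ≤ exStar n k := by
  refine le_csSup ⟨(range n ×ˢ range n).card, ?_⟩ ⟨G, h1, h2, rfl⟩
  rintro a ⟨H, h3, -, rfl⟩
  apply card_le_card
  intro e he
  have := h3 e he
  rw [mem_product, mem_range, mem_range]
  omega

/-- The pairs left out of the complete graph on `{0, …, 2k}`. -/
def S (k : ℕ) : Finset (ℕ × ℕ) :=
  ({1, 2} ∪ Icc 4 (k + 1)).image (fun j => (0, j)) ∪ ({2} ∪ Icc 4 (k + 1)).image (fun j => (1, j)) ∪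
    {(2, 4)}

lemma S_card (k : ℕ) (hk : 4 ≤ k) : (S k).card ≤ 2 * k := by
  unfold S
  have h1 : (({1, 2} ∪ Icc 4 (k + 1) : Finset ℕ).image (fun j => ((0 : ℕ), j))).card ≤ k := by
    refine card_image_le.trans ((card_union_le _ _).trans ?_)
    rw [Nat.card_Icc]
    have : ({1, 2} : Finset ℕ).card = 2 := by decide
    omega
  have h2 : (({2} ∪ Icc 4 (k + 1) : Finset ℕ).image (fun j => ((1 : ℕ), j))).card ≤ k - 1 := by
    refine card_image_le.trans ((card_union_le _ _).trans ?_)
    rw [Nat.card_Icc, card_singleton]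
    omega
  refine (card_union_le _ _).trans ?_
  rw [card_singleton]
  have := card_union_le (({1, 2} ∪ Icc 4 (k + 1) : Finset ℕ).image (fun j => ((0 : ℕ), j)))
    (({2} ∪ Icc 4 (k + 1) : Finset ℕ).image (fun j => ((1 : ℕ), j)))
  omega

/-- The complete ordered graph on `{0, …, m-1}`. -/
def K (m : ℕ) : Finset (ℕ × ℕ) := (range m ×ˢ range m).filter (fun e => e.1 < e.2)

lemma K_card (m : ℕ) : 2 * (K m).card = m * (m - 1) := by
  have h : (K m).card = ∑ y ∈ range m, y := by
    unfold K
    rw [card_filter, sum_product_right]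
    refine sum_congr rfl fun y hy => ?_
    rw [mem_range] at hy
    rw [← card_filter]
    have : (range m).filter (fun x => x < y) = range y := by
      ext x
      rw [mem_filter, mem_range, mem_range]
      omega
    rw [this, card_range]
  rw [h, mul_comm, sum_range_id_mul_two]

/-- The construction. -/
def G (n k : ℕ) : Finset (ℕ × ℕ) :=
  (K (2 * k + 1) \ S k) ∪ (range (k - 1) ×ˢ (Ico (2 * k + 1) n))

lemma G_card (n k : ℕ) (hk : 4 ≤ k) (hn : 2 * k + 1 ≤ n) : (k - 1) * n + 1 ≤ (G n k).card := by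
  unfold G
  rw [card_union_of_disjoint, card_product, card_range, Nat.card_Ico]
  · have h1 := K_card (2 * k + 1)
    have h2 := S_card k hk
    have h3 := le_card_sdiff (S k) (K (2 * k + 1))
    obtain ⟨c, rfl⟩ : ∃ c, k = c + 4 := ⟨k - 4, by omega⟩
    obtain ⟨d, rfl⟩ : ∃ d, n = 2 * (c + 4) + 1 + d := ⟨n - (2 * (c + 4) + 1), by omega⟩
    have e1 : c + 4 - 1 = c + 3 := by omega
    have e2 : 2 * (c + 4) + 1 + d - (2 * (c + 4) + 1) = d := by omega
    have e3 : 2 * (c + 4) + 1 - 1 = 2 * (c + 4) := by omega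
    rw [e1, e2]
    rw [e3] at h1
    have h4 : (K (2 * (c + 4) + 1)).card = (2 * (c + 4) + 1) * (c + 4) := by
      have : 2 * (K (2 * (c + 4) + 1)).card = 2 * ((2 * (c + 4) + 1) * (c + 4)) := by
        rw [h1]; ring
      omega
    rw [h4] at h3
    have h5 : (c + 3) * (2 * (c + 4) + 1 + d) + 1 + 2 * (c + 4)
        = (2 * (c + 4) + 1) * (c + 4) + (c + 3) * d := by ring
    omega
  · rw [disjoint_left]
    intro e he he'
    rw [mem_sdiff, K, mem_filter, mem_product, mem_range, mem_range] at he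
    rw [mem_product, mem_Ico] at he'
    omega

lemma G_ordered (n k : ℕ) (hk : 4 ≤ k) (hn : 2 * k + 1 ≤ n) : OrderedGraph n (G n k) := by
  intro e he
  unfold G at he
  rw [mem_union, mem_sdiff, K, mem_filter, mem_product, mem_range, mem_range, mem_product, mem_range,
    mem_Ico] at he
  omega

/-- What we need to know about the edges of the construction. -/
lemma G_mem (n k : ℕ) (e : ℕ × ℕ) (he : e ∈ G n k) :
    (e.2 ≤ 2 * k ∧ ¬ (e.1 = 0 ∧ (e.2 = 1 ∨ e.2 = 2 ∨ (4 ≤ e.2 ∧ e.2 ≤ k + 1))) ∧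
      ¬ (e.1 = 1 ∧ (e.2 = 2 ∨ (4 ≤ e.2 ∧ e.2 ≤ k + 1))) ∧ ¬ (e.1 = 2 ∧ e.2 = 4)) ∨
    (e.1 < k - 1 ∧ 2 * k + 1 ≤ e.2) := by
  unfold G at he
  rw [mem_union, mem_sdiff, K, mem_filter, mem_product, mem_range, mem_range, mem_product, mem_range,
    mem_Ico] at he
  rcases he with ⟨h1, h2⟩ | h1
  · left
    refine ⟨by omega, ?_, ?_, ?_⟩
    · rintro ⟨h3, h4⟩
      apply h2
      unfold S
      rw [mem_union, mem_union]
      refine Or.inl (Or.inl (mem_image.2 ⟨e.2, ?_, ?_⟩))
      · rw [mem_union, mem_insert, mem_singleton, mem_Icc]; omega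
      · rw [← h3]
    · rintro ⟨h3, h4⟩
      apply h2
      unfold S
      rw [mem_union, mem_union]
      refine Or.inl (Or.inr (mem_image.2 ⟨e.2, ?_, ?_⟩))
      · rw [mem_union, mem_singleton, mem_Icc]; omega
      · rw [← h3]
    · rintro ⟨h3, h4⟩
      apply h2
      unfold S
      rw [mem_union, mem_union]
      refine Or.inr ?_
      rw [mem_singleton, ← h3, ← h4]
  · right
    omega

/-- The core of the argument. -/
theorem core (n k : ℕ) (hk : 4 ≤ k) (M : Finset (ℕ × ℕ)) (hMG : M ⊆ G n k)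
    (hM : Matching k M) (hS : StronglyNonNested M) : False := by
  obtain ⟨hcard, hlt, hdis⟩ := hM
  obtain ⟨p, hp⟩ := hS
  have hne : M.Nonempty := card_pos.1 (by omega)
  -- left endpoints are distinct
  have hinj1 : Set.InjOn Prod.fst (M : Set (ℕ × ℕ)) := by
    intro e he f hf h
    by_contra hef
    exact (hdis e he f hf hef).1 h
  have hinj2 : Set.InjOn Prod.snd (M : Set (ℕ × ℕ)) := by
    intro e he f hf h
    by_contra hef
    exact (hdis e he f hf hef).2.2.2 h
  -- all edges lie inside `{0, …, 2k}`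
  have hsmall : ∀ e ∈ M, e.2 ≤ 2 * k := by
    obtain ⟨m, hm, hmax⟩ := exists_max_image M Prod.snd hne
    intro e he
    refine le_trans (hmax e he) ?_
    by_contra hcon
    have h1 : m.1 < k - 1 := by
      rcases G_mem n k m (hMG hm) with h | h
      · omega
      · exact h.1
    have h2 : ∀ f ∈ M, f.1 ≤ m.1 := by
      intro f hf
      by_contra hf1
      push Not at hf1
      have hfm : m ≠ f := by
        intro h; rw [h] at hf1; exact lt_irrefl _ hf1
      have h3 := hmax f hf
      have h4 := hdis m hm f hf hfm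
      have h5 := hlt f hf
      obtain ⟨h6, h7⟩ := hp m hm f hf hfm
      unfold Disj at h4
      by_cases h8 : p m = p f
      · have := h6 h8
        unfold Crossing at this
        omega
      · have := h7 h8
        unfold Separated at this
        omega
    have h3 : (M.image Prod.fst).card ≤ (range (k - 1)).card := by
      apply card_le_card
      intro x hx
      rw [mem_image] at hx
      obtain ⟨f, hf, rfl⟩ := hx
      rw [mem_range]
      have := h2 f hf
      omega
    rw [card_image_of_injOn hinj1, card_range] at h3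
    omega
  -- the uncovered vertex
  obtain ⟨q, hq, hq0⟩ : ∃ q, (∀ z, z ≤ 2 * k → z ≠ q → ∃ g ∈ M, g.1 = z ∨ g.2 = z) ∧
      ∀ e ∈ M, e.1 ≠ q ∧ e.2 ≠ q := by
    have hdisj : Disjoint (M.image Prod.fst) (M.image Prod.snd) := by
      rw [disjoint_left]
      intro x hx hx'
      rw [mem_image] at hx hx'
      obtain ⟨e, he, h1⟩ := hx
      obtain ⟨f, hf, h2⟩ := hx'
      by_cases hef : e = f
      · have := hlt e he
        rw [hef] at h1 this
        omega
      · have := (hdis e he f hf hef).2.1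
        omega
    have hc : (M.image Prod.fst ∪ M.image Prod.snd).card = 2 * k := by
      rw [card_union_of_disjoint hdisj, card_image_of_injOn hinj1, card_image_of_injOn hinj2, hcard]
      ring
    have hsub : M.image Prod.fst ∪ M.image Prod.snd ⊆ range (2 * k + 1) := by
      intro x hx
      rw [mem_union, mem_image, mem_image] at hx
      rw [mem_range]
      rcases hx with ⟨e, he, h1⟩ | ⟨e, he, h1⟩
      · have := hsmall e he
        have := hlt e he
        omega
      · have := hsmall e he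
        omega
    have h1 : (range (2 * k + 1) \ (M.image Prod.fst ∪ M.image Prod.snd)).card = 1 := by
      rw [card_sdiff_of_subset hsub, hc, card_range]
      omega
    rw [card_eq_one] at h1
    obtain ⟨q, hq⟩ := h1
    refine ⟨q, fun z hz hzq => ?_, fun e he => ?_⟩
    swap
    · have hqm : q ∈ range (2 * k + 1) \ (M.image Prod.fst ∪ M.image Prod.snd) := by
        rw [hq]; exact mem_singleton_self q
      rw [mem_sdiff, mem_union, not_or] at hqm
      exact ⟨fun h => hqm.2.1 (mem_image.2 ⟨e, he, h⟩), fun h => hqm.2.2 (mem_image.2 ⟨e, he, h⟩)⟩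
    by_contra hcon
    push Not at hcon
    have : z ∈ range (2 * k + 1) \ (M.image Prod.fst ∪ M.image Prod.snd) := by
      rw [mem_sdiff, mem_range, mem_union, mem_image, mem_image]
      refine ⟨by omega, ?_⟩
      rintro (⟨g, hg, h1⟩ | ⟨g, hg, h1⟩)
      · exact (hcon g hg).1 h1
      · exact (hcon g hg).2 h1
    rw [hq, mem_singleton] at this
    exact hzq this
  have hG : ∀ e ∈ M, ¬ (e.1 = 0 ∧ (e.2 = 1 ∨ e.2 = 2 ∨ (4 ≤ e.2 ∧ e.2 ≤ k + 1))) ∧
      ¬ (e.1 = 1 ∧ (e.2 = 2 ∨ (4 ≤ e.2 ∧ e.2 ≤ k + 1))) ∧ ¬ (e.1 = 2 ∧ e.2 = 4) := by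
    intro e he
    rcases G_mem n k e (hMG he) with h | h
    · exact h.2
    · exact absurd (hsmall e he) (by omega)
  have hns : ∀ e ∈ M, ∀ f ∈ M, e ≠ f → ¬ (e.2 < f.1 ∨ f.2 < e.1) → p e = p f := by
    intro e he f hf hef h
    by_contra hp'
    exact h ((hp e he f hf hef).2 hp')
  have hcr : ∀ e ∈ M, ∀ f ∈ M, e ≠ f → p e = p f →
      (e.1 < f.1 ∧ f.1 < e.2 ∧ e.2 < f.2) ∨ (f.1 < e.1 ∧ e.1 < f.2 ∧ f.2 < e.2) :=
    fun e he f hf hef h => (hp e he f hf hef).1 h
  have hdj : ∀ e ∈ M, ∀ f ∈ M, e ≠ f → e.1 ≠ f.1 ∧ e.1 ≠ f.2 ∧ e.2 ≠ f.1 ∧ e.2 ≠ f.2 :=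
    fun e he f hf hef => hdis e he f hf hef
  have hbound : ∀ e ∈ M, (∀ f ∈ M, e.1 ≤ f.1) → ((Ioo e.1 e.2).erase q).card ≤ k - 1 := by
    intro e he hmin
    have h1 : ((M.erase e).image Prod.fst).card = k - 1 := by
      rw [card_image_of_injOn (hinj1.mono (by
        intro x hx
        exact mem_of_mem_erase hx)), card_erase_of_mem he, hcard]
    rw [← h1]
    apply card_le_card
    intro z hz
    rw [mem_erase, mem_Ioo] at hz
    have h2 := hsmall e he
    obtain ⟨g, hg, h3⟩ := hq z (by omega) hz.1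
    have hge : e ≠ g := by
      intro h
      rw [← h] at h3
      omega
    refine mem_image.2 ⟨g, mem_erase.2 ⟨hge.symm, hg⟩, ?_⟩
    rcases h3 with h3 | h3
    · exact h3
    · exfalso
      have h4 := hmin g hg
      have h5 := hdj e he g hg hge
      have h6 := hlt g hg
      by_cases h7 : p e = p g
      · have := hcr e he g hg hge h7
        omega
      · exact h7 (hns e he g hg hge (by omega))
  by_cases hq00 : q = 0
  · -- the vertex 0 is uncovered
    obtain ⟨e, he, he1⟩ := hq 1 (by omega) (by omega)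
    have h1 := hlt e he
    have h2 := hq0 e he
    have he11 : e.1 = 1 := by omega
    have hmin : ∀ f ∈ M, e.1 ≤ f.1 := by
      intro f hf
      have := hq0 f hf
      omega
    have h3 := hbound e he hmin
    have h4 : (Ioo e.1 e.2).erase q = Ioo e.1 e.2 := by
      apply erase_eq_of_notMem
      rw [mem_Ioo]; omega
    rw [h4, Nat.card_Ioo] at h3
    have h5 := hG e he
    have he2 : e.2 = 3 := by omega
    obtain ⟨f, hf, hf2⟩ := hq 2 (by omega) (by omega)
    have hef : e ≠ f := by
      intro h; rw [← h] at hf2; omega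
    have h6 := hdj e he f hf hef
    have h7 := hlt f hf
    have h8 := hmin f hf
    have h9 := hns e he f hf hef (by omega)
    have h10 := hcr e he f hf hef h9
    have h11 := hG f hf
    have hf1 : f.1 = 2 := by omega
    obtain ⟨g, hg, hg4⟩ := hq 4 (by omega) (by omega)
    have hfg : f ≠ g := by
      intro h; rw [← h] at hg4; omega
    have heg : e ≠ g := by
      intro h; rw [← h] at hg4; omega
    have h12 := hdj f hf g hg hfg
    have h13 := hlt g hg
    have h14 := hns f hf g hg hfg (by omega)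
    have h15 := hcr e he g hg heg (h9.trans h14)
    have h16 := hmin g hg
    omega
  · obtain ⟨e, he, he1⟩ := hq 0 (by omega) (by omega)
    have h1 := hlt e he
    have he11 : e.1 = 0 := by omega
    have hmin : ∀ f ∈ M, e.1 ≤ f.1 := by
      intro f hf
      omega
    have h3 := hbound e he hmin
    have h4 : (Ioo e.1 e.2).card - 1 ≤ ((Ioo e.1 e.2).erase q).card := pred_card_le_card_erase
    rw [Nat.card_Ioo] at h4
    have h5 := hG e he
    have he2 : e.2 = 3 := by omega
    by_cases hq1 : q = 1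
    · obtain ⟨f, hf, hf2⟩ := hq 2 (by omega) (by omega)
      have hef : e ≠ f := by
        intro h; rw [← h] at hf2; omega
      have h6 := hdj e he f hf hef
      have h7 := hlt f hf
      have h9 := hns e he f hf hef (by omega)
      have h10 := hcr e he f hf hef h9
      have h11 := hG f hf
      have hf1 : f.1 = 2 := by omega
      obtain ⟨g, hg, hg4⟩ := hq 4 (by omega) (by omega)
      have hfg : f ≠ g := by
        intro h; rw [← h] at hg4; omega
      have heg : e ≠ g := by
        intro h; rw [← h] at hg4; omega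
      have h12 := hdj f hf g hg hfg
      have h13 := hlt g hg
      have h14 := hns f hf g hg hfg (by omega)
      have h15 := hcr e he g hg heg (h9.trans h14)
      have h16 := hq0 g hg
      omega
    · obtain ⟨f, hf, hf2⟩ := hq 1 (by omega) (by omega)
      have hef : e ≠ f := by
        intro h; rw [← h] at hf2; omega
      have h6 := hdj e he f hf hef
      have h7 := hlt f hf
      have h9 := hns e he f hf hef (by omega)
      have h10 := hcr e he f hf hef h9
      have h11 := hG f hf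
      have hf1 : f.1 = 1 := by omega
      have hf2 : 6 ≤ f.2 := by omega
      obtain ⟨z, hz, hzq⟩ : ∃ z, (z = 4 ∨ z = 5) ∧ z ≠ q := by
        by_cases h : q = 4
        · exact ⟨5, by omega, by omega⟩
        · exact ⟨4, by omega, by omega⟩
      obtain ⟨g, hg, hg4⟩ := hq z (by omega) hzq
      have hfg : f ≠ g := by
        intro h; rw [← h] at hg4; omega
      have heg : e ≠ g := by
        intro h; rw [← h] at hg4; omega
      have h12 := hdj f hf g hg hfg
      have h13 := hlt g hg
      have h14 := hns f hf g hg hfg (by omega)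
      have h15 := hcr e he g hg heg (h9.trans h14)
      have h16 := hcr f hf g hg hfg h14
      omega

/-- **Main theorem.** (1) For all `k ≥ 4` and `n ≥ 2 k + 1`, some ordered graph on `n` vertices with at
least `(k - 1) n + 1` edges contains no strongly non-nested `k`-matching. (2) So it is not true that
`ex_<(n, ¬Nest-M_k) = ex_<(n, ¬Nest*-M_k) = (k - 1) n` for all `k ≥ 1`, `n ≥ 2 k`. -/
theorem result :
    (∀ k n : ℕ, 4 ≤ k → 2 * k + 1 ≤ n → (k - 1) * n + 1 ≤ exStar n k) ∧
    ¬ (∀ k n : ℕ, 1 ≤ k → 2 * k ≤ n → exNN n k = (k - 1) * n ∧ exStar n k = (k - 1) * n) := by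
  have main : ∀ k n : ℕ, 4 ≤ k → 2 * k + 1 ≤ n → (k - 1) * n + 1 ≤ exStar n k := by
    intro k n hk hn
    exact (G_card n k hk hn).trans (le_exStar _ (G_ordered n k hk hn)
      (fun M h1 h2 h3 => core n k hk M h1 h2 h3))
  refine ⟨main, fun h => ?_⟩
  have h1 := main 4 9 (by norm_num) (by norm_num)
  have h2 := (h 4 9 (by norm_num) (by norm_num)).2
  omega

end Pool.Agent.Results.MP_19ad23_co.BeyondLinear
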